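import Pool.Agent.helper6.LD.Defs

/-!
Mean value theorem for Dirichlet polynomials at well spaced points (module MV of the project
on MP_4467b5_nt), helper58.
-/

set_option autoImplicit false

open Complex Metric MeasureTheory intervalIntegral

namespace Pool.Agent.helper6.LD

/-- exponential polynomial with frequencies `-log n` -/
noncomputable def h58ep (N : ℕ) (b : ℕ → ℂ) (t : ℝ) : ℂ :=
  ∑ n ∈ Finset.Icc 1 N, b n * Complex.exp ((t : ℂ) * (-(Real.log n : ℂ) * I))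

lemma h58_dp (N : ℕ) (a : ℕ → ℂ) (t : ℝ) : dp N a t = h58ep N a t := by
  unfold dp h58ep
  refine Finset.sum_congr rfl fun n hn => ?_
  have hn1 : 1 ≤ n := (Finset.mem_Icc.1 hn).1
  have hn0 : (n : ℂ) ≠ 0 := by exact_mod_cast (by omega : n ≠ 0)
  rw [Complex.cpow_def_of_ne_zero hn0, ← Complex.natCast_log]
  congr 2
  ring

lemma h58_deriv (N : ℕ) (b : ℕ → ℂ) (t : ℝ) :
    HasDerivAt (h58ep N b) (h58ep N (fun n => b n * (-(Real.log n : ℂ) * I)) t) t := by
  have key : ∀ n ∈ Finset.Icc 1 N,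
      HasDerivAt (fun t : ℝ => b n * Complex.exp ((t : ℂ) * (-(Real.log n : ℂ) * I)))
        (b n * (-(Real.log n : ℂ) * I) * Complex.exp ((t : ℂ) * (-(Real.log n : ℂ) * I))) t := by
    intro n _
    have h1 : HasDerivAt (fun t : ℝ => (t : ℂ) * (-(Real.log n : ℂ) * I))
        (1 * (-(Real.log n : ℂ) * I)) t := (Complex.ofRealCLM.hasDerivAt (x := t)).mul_const _
    have h2 := (h1.cexp).const_mul (b n)
    refine h2.congr_deriv ?_
    ring
  exact HasDerivAt.fun_sum key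

lemma h58_cont (N : ℕ) (b : ℕ → ℂ) : Continuous (h58ep N b) :=
  continuous_iff_continuousAt.2 fun t => (h58_deriv N b t).continuousAt

/-- `|log n - log m| ≥ |n - m| / N` -/
lemma h58_log_sub {N m n : ℕ} (hm : 1 ≤ m) (hn : 1 ≤ n) (hmN : m ≤ N) (hnN : n ≤ N) :
    |(n : ℝ) - m| / N ≤ |Real.log n - Real.log m| := by
  have aux : ∀ m n : ℕ, 1 ≤ m → m ≤ n → n ≤ N →
      |(n : ℝ) - m| / N ≤ |Real.log n - Real.log m| := by
    intro m n hm hmn hnN
    have hm' : (0 : ℝ) < m := by exact_mod_cast hm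
    have hn' : (0 : ℝ) < n := by exact_mod_cast (by omega : 0 < n)
    have hmn' : (m : ℝ) ≤ n := by exact_mod_cast hmn
    have hnN' : (n : ℝ) ≤ N := by exact_mod_cast hnN
    have h1 : Real.log (m / n : ℝ) ≤ m / n - 1 := Real.log_le_sub_one_of_pos (by positivity)
    rw [Real.log_div hm'.ne' hn'.ne'] at h1
    have h2 : ((n : ℝ) - m) / N ≤ ((n : ℝ) - m) / n :=
      div_le_div_of_nonneg_left (by linarith) hn' hnN'
    have h3 : ((n : ℝ) - m) / n = 1 - m / n := by field_simp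
    rw [abs_of_nonneg (by linarith : (0 : ℝ) ≤ (n : ℝ) - m)]
    refine le_trans ?_ (le_abs_self _)
    linarith
  rcases le_total m n with h | h
  · exact aux m n hm h hnN
  · rw [abs_sub_comm, abs_sub_comm (Real.log n)]
    exact aux n m hn h hmN

/-- off-diagonal integral -/
lemma h58_osc {x A B : ℝ} (hx : x ≠ 0) :
    ‖∫ t in A..B, Complex.exp (((x : ℂ) * I) * (t : ℂ))‖ ≤ 2 / |x| := by
  have hc : ((x : ℂ) * I) ≠ 0 := mul_ne_zero (by exact_mod_cast hx) I_ne_zero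
  rw [integral_exp_mul_complex hc, norm_div]
  have h1 : ‖(x : ℂ) * I‖ = |x| := by simp
  have h2 : ∀ t : ℝ, ‖Complex.exp ((x : ℂ) * I * t)‖ = 1 := by
    intro t
    rw [show (x : ℂ) * I * t = ((x * t : ℝ) : ℂ) * I by push_cast; ring]
    exact Complex.norm_exp_ofReal_mul_I _
  rw [h1]
  refine div_le_div_of_nonneg_right ?_ (abs_nonneg _)
  calc _ ≤ ‖Complex.exp ((x : ℂ) * I * B)‖ + ‖Complex.exp ((x : ℂ) * I * A)‖ := norm_sub_le _ _
    _ = 2 := by rw [h2, h2]; norm_num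

/-- row sum -/
lemma h58_row {N m : ℕ} (hm : 1 ≤ m) (hmN : m ≤ N) :
    ∑ n ∈ (Finset.Icc 1 N).erase m, (1 : ℝ) / |(n : ℝ) - m| ≤ 2 * (1 + Real.log N) := by
  have hH : ∑ k ∈ Finset.Icc 1 N, (1 : ℝ) / k ≤ 1 + Real.log N := by
    have := harmonic_le_one_add_log N
    rw [harmonic_eq_sum_Icc] at this
    push_cast at this
    simpa [one_div] using this
  have hsplit : (Finset.Icc 1 N).erase m = (Finset.Ico 1 m) ∪ (Finset.Ioc m N) := by
    ext n
    simp only [Finset.mem_erase, Finset.mem_Icc, Finset.mem_union, Finset.mem_Ico, Finset.mem_Ioc]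
    omega
  have hdisj : Disjoint (Finset.Ico 1 m) (Finset.Ioc m N) := by
    rw [Finset.disjoint_left]
    intro n h1 h2
    simp only [Finset.mem_Ico, Finset.mem_Ioc] at h1 h2
    omega
  rw [hsplit, Finset.sum_union hdisj]
  have h1 : ∑ n ∈ Finset.Ico 1 m, (1 : ℝ) / |(n : ℝ) - m| ≤ ∑ k ∈ Finset.Icc 1 N, (1 : ℝ) / k := by
    have e : ∑ n ∈ Finset.Ico 1 m, (1 : ℝ) / |(n : ℝ) - m| =
        ∑ k ∈ (Finset.Ico 1 m).image (fun n => m - n), (1 : ℝ) / k := by
      rw [Finset.sum_image]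
      · refine Finset.sum_congr rfl fun n hn => ?_
        have hn2 : n < m := (Finset.mem_Ico.1 hn).2
        have : (n : ℝ) < m := by exact_mod_cast hn2
        rw [abs_of_neg (by linarith), Nat.cast_sub hn2.le]
        congr 1
        ring
      · intro x hx y hy hxy
        simp only [Finset.coe_Ico, Set.mem_Ico] at hx hy
        simp only at hxy
        omega
    rw [e]
    refine Finset.sum_le_sum_of_subset_of_nonneg ?_ fun _ _ _ => by positivity
    intro k hk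
    simp only [Finset.mem_image, Finset.mem_Ico, Finset.mem_Icc] at hk ⊢
    obtain ⟨n, hn, rfl⟩ := hk
    omega
  have h2 : ∑ n ∈ Finset.Ioc m N, (1 : ℝ) / |(n : ℝ) - m| ≤ ∑ k ∈ Finset.Icc 1 N, (1 : ℝ) / k := by
    have e : ∑ n ∈ Finset.Ioc m N, (1 : ℝ) / |(n : ℝ) - m| =
        ∑ k ∈ (Finset.Ioc m N).image (fun n => n - m), (1 : ℝ) / k := by
      rw [Finset.sum_image]
      · refine Finset.sum_congr rfl fun n hn => ?_
        have hn2 : m < n := (Finset.mem_Ioc.1 hn).1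
        have : (m : ℝ) < n := by exact_mod_cast hn2
        rw [abs_of_pos (by linarith), Nat.cast_sub hn2.le]
      · intro x hx y hy hxy
        simp only [Finset.coe_Ioc, Set.mem_Ioc] at hx hy
        simp only at hxy
        omega
    rw [e]
    refine Finset.sum_le_sum_of_subset_of_nonneg ?_ fun _ _ _ => by positivity
    intro k hk
    simp only [Finset.mem_image, Finset.mem_Ioc, Finset.mem_Icc] at hk ⊢
    obtain ⟨n, hn, rfl⟩ := hk
    omega
  linarith

/-- the kernel bound -/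
noncomputable def h58K (N : ℕ) (L : ℝ) (m n : ℕ) : ℝ :=
  if n = m then L else 2 * N * (1 / |(n : ℝ) - m|)

lemma h58K_symm (N : ℕ) (L : ℝ) (m n : ℕ) : h58K N L m n = h58K N L n m := by
  unfold h58K
  by_cases h : n = m
  · simp [h]
  · rw [if_neg h, if_neg (Ne.symm h), abs_sub_comm]

lemma h58K_sum {N m : ℕ} {L : ℝ} (hm : m ∈ Finset.Icc 1 N) :
    ∑ n ∈ Finset.Icc 1 N, h58K N L m n ≤ L + 4 * N * (1 + Real.log N) := by
  rw [← Finset.add_sum_erase _ _ hm]
  have h1 : h58K N L m m = L := by simp [h58K]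
  have h2 : ∑ n ∈ (Finset.Icc 1 N).erase m, h58K N L m n =
      2 * N * ∑ n ∈ (Finset.Icc 1 N).erase m, (1 : ℝ) / |(n : ℝ) - m| := by
    rw [Finset.mul_sum]
    refine Finset.sum_congr rfl fun n hn => ?_
    unfold h58K
    rw [if_neg (Finset.ne_of_mem_erase hn)]
  rw [h1, h2]
  have h3 := h58_row (Finset.mem_Icc.1 hm).1 (Finset.mem_Icc.1 hm).2
  have h4 : (0 : ℝ) ≤ 2 * N := by positivity
  nlinarith [mul_le_mul_of_nonneg_left h3 h4]

/-- expansion of the square -/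
lemma h58_sq (N : ℕ) (b : ℕ → ℂ) (t : ℝ) :
    ((‖h58ep N b t‖ ^ 2 : ℝ) : ℂ) = ∑ m ∈ Finset.Icc 1 N, ∑ n ∈ Finset.Icc 1 N,
      b m * (starRingEnd ℂ) (b n) *
        Complex.exp ((((Real.log n - Real.log m : ℝ) : ℂ) * I) * (t : ℂ)) := by
  have h1 : ((‖h58ep N b t‖ ^ 2 : ℝ) : ℂ) = h58ep N b t * (starRingEnd ℂ) (h58ep N b t) := by
    rw [Complex.mul_conj, Complex.normSq_eq_norm_sq]
  rw [h1]
  unfold h58ep
  rw [map_sum, Finset.sum_mul_sum]
  refine Finset.sum_congr rfl fun m _ => Finset.sum_congr rfl fun n _ => ?_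
  rw [map_mul, ← Complex.exp_conj]
  have : (starRingEnd ℂ) ((t : ℂ) * (-(Real.log n : ℂ) * I)) = (t : ℂ) * ((Real.log n : ℂ) * I) := by
    rw [map_mul, map_mul, map_neg, Complex.conj_ofReal, Complex.conj_ofReal, Complex.conj_I]
    ring
  rw [this, show b m * Complex.exp ((t : ℂ) * (-(Real.log m : ℂ) * I)) *
      ((starRingEnd ℂ) (b n) * Complex.exp ((t : ℂ) * ((Real.log n : ℂ) * I))) =
      b m * (starRingEnd ℂ) (b n) * (Complex.exp ((t : ℂ) * (-(Real.log m : ℂ) * I)) *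
      Complex.exp ((t : ℂ) * ((Real.log n : ℂ) * I))) by ring, ← Complex.exp_add]
  congr 2
  push_cast
  ring

/-- the quadratic mean value -/
lemma h58_quad {N : ℕ} (hN : 1 ≤ N) (b : ℕ → ℂ) {A B : ℝ} (hAB : A ≤ B) :
    ∫ t in A..B, ‖h58ep N b t‖ ^ 2 ≤
      (B - A + 4 * N * (1 + Real.log N)) * ∑ n ∈ Finset.Icc 1 N, ‖b n‖ ^ 2 := by
  have hpos : 0 ≤ ∫ t in A..B, ‖h58ep N b t‖ ^ 2 :=
    intervalIntegral.integral_nonneg hAB fun t _ => by positivity
  have h1 : ((∫ t in A..B, ‖h58ep N b t‖ ^ 2 : ℝ) : ℂ) =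
      ∑ m ∈ Finset.Icc 1 N, ∑ n ∈ Finset.Icc 1 N, b m * (starRingEnd ℂ) (b n) *
        ∫ t in A..B, Complex.exp ((((Real.log n - Real.log m : ℝ) : ℂ) * I) * (t : ℂ)) := by
    rw [← intervalIntegral.integral_ofReal]
    simp_rw [h58_sq]
    have hc : ∀ m n : ℕ, Continuous fun t : ℝ => b m * (starRingEnd ℂ) (b n) *
        Complex.exp ((((Real.log n - Real.log m : ℝ) : ℂ) * I) * (t : ℂ)) := by
      intro m n
      fun_prop
    rw [intervalIntegral.integral_finsetSum]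
    · refine Finset.sum_congr rfl fun m _ => ?_
      rw [intervalIntegral.integral_finsetSum]
      · refine Finset.sum_congr rfl fun n _ => ?_
        rw [intervalIntegral.integral_const_mul]
      · intro n _
        exact (hc m n).intervalIntegrable _ _
    · intro m _
      exact (continuous_finsetSum _ fun n _ => hc m n).intervalIntegrable _ _
  have h2 : ∀ m ∈ Finset.Icc 1 N, ∀ n ∈ Finset.Icc 1 N,
      ‖∫ t in A..B, Complex.exp ((((Real.log n - Real.log m : ℝ) : ℂ) * I) * (t : ℂ))‖ ≤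
        h58K N (B - A) m n := by
    intro m hm n hn
    rw [Finset.mem_Icc] at hm hn
    by_cases hmn : n = m
    · subst hmn
      simp only [sub_self, Complex.ofReal_zero, zero_mul, Complex.exp_zero]
      simp [h58K]
      rw [← Complex.ofReal_sub, Complex.norm_real, Real.norm_eq_abs,
        abs_of_nonneg (sub_nonneg.2 hAB)]
    · have hd := h58_log_sub hm.1 hn.1 hm.2 hn.2
      have hne : (n : ℝ) - m ≠ 0 := sub_ne_zero.2 (by exact_mod_cast hmn)
      have hpos2 : 0 < |(n : ℝ) - m| := abs_pos.2 hne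
      have hNpos : (0 : ℝ) < N := by exact_mod_cast hN
      have hlow : 0 < |(n : ℝ) - m| / N := by positivity
      have hx : Real.log n - Real.log m ≠ 0 := by
        intro h
        rw [h, abs_zero] at hd
        linarith
      refine (h58_osc hx).trans ?_
      unfold h58K
      rw [if_neg hmn]
      calc 2 / |Real.log n - Real.log m| ≤ 2 / (|(n : ℝ) - m| / N) :=
            div_le_div_of_nonneg_left (by norm_num) hlow hd
        _ = 2 * N * (1 / |(n : ℝ) - m|) := by field_simp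
  have h3 : ∫ t in A..B, ‖h58ep N b t‖ ^ 2 ≤
      ∑ m ∈ Finset.Icc 1 N, ∑ n ∈ Finset.Icc 1 N, ‖b m‖ * ‖b n‖ * h58K N (B - A) m n := by
    calc ∫ t in A..B, ‖h58ep N b t‖ ^ 2 = ‖((∫ t in A..B, ‖h58ep N b t‖ ^ 2 : ℝ) : ℂ)‖ := by
          rw [Complex.norm_real, Real.norm_of_nonneg hpos]
      _ ≤ _ := by
          rw [h1]
          refine (norm_sum_le _ _).trans (Finset.sum_le_sum fun m hm => ?_)
          refine (norm_sum_le _ _).trans (Finset.sum_le_sum fun n hn => ?_)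
          rw [norm_mul, norm_mul, RCLike.norm_conj]
          exact mul_le_mul_of_nonneg_left (h2 m hm n hn) (by positivity)
  have hK0 : ∀ m n : ℕ, 0 ≤ h58K N (B - A) m n := by
    intro m n
    unfold h58K
    split_ifs
    · linarith
    · positivity
  have h4 : ∑ m ∈ Finset.Icc 1 N, ∑ n ∈ Finset.Icc 1 N, ‖b m‖ * ‖b n‖ * h58K N (B - A) m n ≤
      ∑ m ∈ Finset.Icc 1 N, ∑ n ∈ Finset.Icc 1 N,
        (‖b m‖ ^ 2 * h58K N (B - A) m n / 2 + ‖b n‖ ^ 2 * h58K N (B - A) m n / 2) := by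
    refine Finset.sum_le_sum fun m _ => Finset.sum_le_sum fun n _ => ?_
    nlinarith [mul_nonneg (sq_nonneg (‖b m‖ - ‖b n‖)) (hK0 m n)]
  have h5 : ∑ m ∈ Finset.Icc 1 N, ∑ n ∈ Finset.Icc 1 N,
        (‖b m‖ ^ 2 * h58K N (B - A) m n / 2 + ‖b n‖ ^ 2 * h58K N (B - A) m n / 2) =
      ∑ m ∈ Finset.Icc 1 N, ‖b m‖ ^ 2 * ∑ n ∈ Finset.Icc 1 N, h58K N (B - A) m n := by
    simp_rw [Finset.sum_add_distrib]
    have e : ∑ m ∈ Finset.Icc 1 N, ∑ n ∈ Finset.Icc 1 N, ‖b n‖ ^ 2 * h58K N (B - A) m n / 2 =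
        ∑ m ∈ Finset.Icc 1 N, ∑ n ∈ Finset.Icc 1 N, ‖b m‖ ^ 2 * h58K N (B - A) m n / 2 := by
      rw [Finset.sum_comm]
      refine Finset.sum_congr rfl fun m _ => Finset.sum_congr rfl fun n _ => ?_
      rw [h58K_symm]
    rw [e, ← Finset.sum_add_distrib]
    refine Finset.sum_congr rfl fun m _ => ?_
    rw [← Finset.sum_add_distrib, Finset.mul_sum]
    refine Finset.sum_congr rfl fun n _ => ?_
    ring
  rw [h5] at h4
  refine h3.trans (h4.trans ?_)
  rw [Finset.mul_sum]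
  refine Finset.sum_le_sum fun m hm => ?_
  rw [mul_comm]
  exact mul_le_mul_of_nonneg_right (h58K_sum hm) (by positivity)

/-- pointwise bound by an integral over a window of length one -/
lemma h58_sobolev {F F' : ℝ → ℂ} (hF : ∀ t, HasDerivAt F (F' t) t) (hF' : Continuous F') (t₀ : ℝ) :
    ‖F t₀‖ ^ 2 ≤ ∫ t in (t₀ - 1 / 2)..(t₀ + 1 / 2), (2 * ‖F t‖ ^ 2 + ‖F' t‖ ^ 2) := by
  have hFc : Continuous F := continuous_iff_continuousAt.2 fun t => (hF t).continuousAt
  set g : ℝ → ℝ := fun t => ‖F t‖ ^ 2 + ‖F' t‖ ^ 2 with hg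
  have hgc : Continuous g := by fun_prop
  have hg0 : ∀ t, 0 ≤ g t := fun t => by positivity
  have hd : ∀ t, HasDerivAt (fun t => ‖F t‖ ^ 2) (2 * inner ℝ (F t) (F' t)) t :=
    fun t => (hF t).norm_sq
  have hdc : Continuous fun t => 2 * inner ℝ (F t) (F' t) := by
    exact (continuous_const.mul (hFc.inner hF'))
  have hdb : ∀ t, ‖2 * inner ℝ (F t) (F' t)‖ ≤ g t := by
    intro t
    have := norm_inner_le_norm (𝕜 := ℝ) (F t) (F' t)
    rw [norm_mul, Real.norm_of_nonneg (by norm_num : (0 : ℝ) ≤ 2)]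
    simp only [hg]
    nlinarith [sq_nonneg (‖F t‖ - ‖F' t‖)]
  set G : ℝ := ∫ t in (t₀ - 1 / 2)..(t₀ + 1 / 2), g t with hG
  have h1 : ∀ u ∈ Set.Icc (t₀ - 1 / 2) (t₀ + 1 / 2), ‖F t₀‖ ^ 2 ≤ ‖F u‖ ^ 2 + G := by
    intro u hu
    have e : ∫ t in u..t₀, 2 * inner ℝ (F t) (F' t) = ‖F t₀‖ ^ 2 - ‖F u‖ ^ 2 :=
      intervalIntegral.integral_eq_sub_of_hasDerivAt (fun t _ => hd t)
        (hdc.intervalIntegrable _ _)
    have h2 : ‖F t₀‖ ^ 2 - ‖F u‖ ^ 2 ≤ |∫ t in u..t₀, g t| := by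
      rw [← e]
      refine (le_abs_self _).trans ?_
      rw [← Real.norm_eq_abs]
      refine (intervalIntegral.norm_integral_le_abs_integral_norm).trans ?_
      rw [← Real.norm_eq_abs, ← Real.norm_eq_abs]
      rcases le_total u t₀ with h | h
      · rw [Real.norm_of_nonneg (intervalIntegral.integral_nonneg h fun t _ => norm_nonneg _),
          Real.norm_of_nonneg (intervalIntegral.integral_nonneg h fun t _ => hg0 t)]
        exact intervalIntegral.integral_mono_on h (hdc.norm.intervalIntegrable _ _)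
          (hgc.intervalIntegrable _ _) fun t _ => hdb t
      · rw [intervalIntegral.integral_symm, intervalIntegral.integral_symm (f := g), norm_neg,
          norm_neg, Real.norm_of_nonneg (intervalIntegral.integral_nonneg h fun t _ => norm_nonneg _),
          Real.norm_of_nonneg (intervalIntegral.integral_nonneg h fun t _ => hg0 t)]
        exact intervalIntegral.integral_mono_on h (hdc.norm.intervalIntegrable _ _)
          (hgc.intervalIntegrable _ _) fun t _ => hdb t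
    have h3 : |∫ t in u..t₀, g t| ≤ G := by
      rcases le_total u t₀ with h | h
      · rw [abs_of_nonneg (intervalIntegral.integral_nonneg h fun t _ => hg0 t)]
        exact intervalIntegral.integral_mono_interval hu.1 h (by linarith)
          (Filter.Eventually.of_forall hg0) (hgc.intervalIntegrable _ _)
      · rw [intervalIntegral.integral_symm, abs_neg,
          abs_of_nonneg (intervalIntegral.integral_nonneg h fun t _ => hg0 t)]
        exact intervalIntegral.integral_mono_interval (by linarith) h hu.2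
          (Filter.Eventually.of_forall hg0) (hgc.intervalIntegrable _ _)
    linarith
  have hle : t₀ - 1 / 2 ≤ t₀ + 1 / 2 := by linarith
  have hsqc : Continuous fun t => ‖F t‖ ^ 2 := by fun_prop
  have h4 : ∫ _t in (t₀ - 1 / 2)..(t₀ + 1 / 2), ‖F t₀‖ ^ 2 ≤
      ∫ u in (t₀ - 1 / 2)..(t₀ + 1 / 2), (‖F u‖ ^ 2 + G) :=
    intervalIntegral.integral_mono_on hle (continuous_const.intervalIntegrable _ _)
      ((hsqc.add continuous_const).intervalIntegrable _ _) h1
  rw [intervalIntegral.integral_const, intervalIntegral.integral_add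
    (hsqc.intervalIntegrable _ _) (continuous_const.intervalIntegrable _ _),
    intervalIntegral.integral_const] at h4
  have h5 : t₀ + 1 / 2 - (t₀ - 1 / 2) = 1 := by ring
  rw [h5, one_smul, one_smul] at h4
  refine h4.trans (le_of_eq ?_)
  rw [hG, ← intervalIntegral.integral_add (hsqc.intervalIntegrable _ _)
    (hgc.intervalIntegrable _ _)]
  refine intervalIntegral.integral_congr fun t _ => ?_
  simp only [hg]
  ring

/-- sum over well spaced points -/
lemma h58_gallagher {g : ℝ → ℝ} (hg : Continuous g) (hg0 : ∀ t, 0 ≤ g t) {T H : ℝ} (hH : 0 ≤ H)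
    (P : Finset ℝ) (hP : ∀ t ∈ P, T ≤ t ∧ t ≤ T + H)
    (hsep : ∀ s ∈ P, ∀ t ∈ P, s ≠ t → 1 ≤ |s - t|) :
    ∑ t₀ ∈ P, ∫ t in (t₀ - 1 / 2)..(t₀ + 1 / 2), g t ≤
      ∫ t in (T - 1 / 2)..(T + H + 1 / 2), g t := by
  have e : ∀ t₀ ∈ P, ∫ t in (t₀ - 1 / 2)..(t₀ + 1 / 2), g t =
      ∫ t in Set.Ioc (t₀ - 1 / 2) (t₀ + 1 / 2), g t := fun t₀ _ =>
    intervalIntegral.integral_of_le (by linarith)
  rw [Finset.sum_congr rfl e, intervalIntegral.integral_of_le (by linarith)]
  have hint : IntegrableOn g (Set.Ioc (T - 1 / 2) (T + H + 1 / 2)) :=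
    (intervalIntegrable_iff_integrableOn_Ioc_of_le (by linarith)).1 (hg.intervalIntegrable _ _)
  have hsub : ∀ t₀ ∈ P, Set.Ioc (t₀ - 1 / 2) (t₀ + 1 / 2) ⊆
      Set.Ioc (T - 1 / 2) (T + H + 1 / 2) := by
    intro t₀ ht₀
    exact Set.Ioc_subset_Ioc (by linarith [(hP t₀ ht₀).1]) (by linarith [(hP t₀ ht₀).2])
  rw [← integral_biUnion_finset P (fun _ _ => measurableSet_Ioc) ?_
    (fun t₀ ht₀ => hint.mono_set (hsub t₀ ht₀))]
  · refine setIntegral_mono_set hint (Filter.Eventually.of_forall hg0) ?_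
    exact (Set.iUnion₂_subset hsub).eventuallyLE
  · intro s hs t ht hst
    have h1 := hsep s hs t ht hst
    refine Set.disjoint_left.2 fun x hx hy => ?_
    have hx1 := hx.1
    have hx2 := hx.2
    have hy1 := hy.1
    have hy2 := hy.2
    rcases abs_cases (s - t) with ⟨h, _⟩ | ⟨h, _⟩ <;> linarith

theorem mean_value (N : ℕ) (hN : 1 ≤ N) (a : ℕ → ℂ) (T H : ℝ) (hH : 0 ≤ H) (P : Finset ℝ)
    (hP : ∀ t ∈ P, T ≤ t ∧ t ≤ T + H) (hsep : ∀ s ∈ P, ∀ t ∈ P, s ≠ t → 1 ≤ |s - t|) :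
    ∑ t ∈ P, ‖dp N a t‖ ^ 2 ≤
      (H + 1 + 4 * N * (1 + Real.log N)) * (2 + Real.log N ^ 2) *
        ∑ n ∈ Finset.Icc 1 N, ‖a n‖ ^ 2 := by
  set a' : ℕ → ℂ := fun n => a n * (-(Real.log n : ℂ) * I) with ha'
  have hc := h58_cont N a
  have hc' := h58_cont N a'
  have h1 : ∑ t ∈ P, ‖dp N a t‖ ^ 2 ≤ ∑ t₀ ∈ P, ∫ t in (t₀ - 1 / 2)..(t₀ + 1 / 2),
      (2 * ‖h58ep N a t‖ ^ 2 + ‖h58ep N a' t‖ ^ 2) := by
    refine Finset.sum_le_sum fun t _ => ?_
    rw [h58_dp]
    exact h58_sobolev (fun t => h58_deriv N a t) hc' t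
  have h2 := h58_gallagher (g := fun t => 2 * ‖h58ep N a t‖ ^ 2 + ‖h58ep N a' t‖ ^ 2)
    (by fun_prop) (fun t => by positivity) hH P hP hsep
  have hle : T - 1 / 2 ≤ T + H + 1 / 2 := by linarith
  have i1 : IntervalIntegrable (fun t => 2 * ‖h58ep N a t‖ ^ 2) volume
      (T - 1 / 2) (T + H + 1 / 2) :=
    Continuous.intervalIntegrable (by fun_prop) _ _
  have i2 : IntervalIntegrable (fun t => ‖h58ep N a' t‖ ^ 2) volume
      (T - 1 / 2) (T + H + 1 / 2) :=
    Continuous.intervalIntegrable (by fun_prop) _ _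
  rw [intervalIntegral.integral_add i1 i2, intervalIntegral.integral_const_mul] at h2
  have h3 := h58_quad hN a hle
  have h4 := h58_quad hN a' hle
  have h5 : T + H + 1 / 2 - (T - 1 / 2) = H + 1 := by ring
  rw [h5] at h3 h4
  have hlog : 0 ≤ Real.log N := Real.log_nonneg (by exact_mod_cast hN)
  have h6 : ∑ n ∈ Finset.Icc 1 N, ‖a' n‖ ^ 2 ≤
      Real.log N ^ 2 * ∑ n ∈ Finset.Icc 1 N, ‖a n‖ ^ 2 := by
    rw [Finset.mul_sum]
    refine Finset.sum_le_sum fun n hn => ?_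
    rw [Finset.mem_Icc] at hn
    have hn1 : (1 : ℝ) ≤ n := by exact_mod_cast hn.1
    have hn0 : 0 ≤ Real.log n := Real.log_nonneg hn1
    have hnl : Real.log n ≤ Real.log N :=
      Real.log_le_log (by linarith) (by exact_mod_cast hn.2)
    have e : ‖a' n‖ = ‖a n‖ * Real.log n := by
      simp only [ha']
      rw [norm_mul, norm_mul, norm_neg, Complex.norm_real, Complex.norm_I, mul_one,
        Real.norm_of_nonneg hn0]
    rw [e, mul_pow, mul_comm]
    exact mul_le_mul_of_nonneg_right (pow_le_pow_left₀ hn0 hnl 2) (by positivity)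
  have hC : 0 ≤ H + 1 + 4 * N * (1 + Real.log N) := by positivity
  have h7 := mul_le_mul_of_nonneg_left h6 hC
  refine h1.trans (h2.trans ?_)
  have : (H + 1 + 4 * N * (1 + Real.log N)) * (2 + Real.log N ^ 2) *
        ∑ n ∈ Finset.Icc 1 N, ‖a n‖ ^ 2 =
      2 * ((H + 1 + 4 * N * (1 + Real.log N)) * ∑ n ∈ Finset.Icc 1 N, ‖a n‖ ^ 2) +
      (H + 1 + 4 * N * (1 + Real.log N)) *
        (Real.log N ^ 2 * ∑ n ∈ Finset.Icc 1 N, ‖a n‖ ^ 2) := by ring
  rw [this]
  linarith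

end Pool.Agent.helper6.LD
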